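import Mathlib
import Pool.Agent.Helper539.LadFinal

set_option autoImplicit false

namespace Pool.Agent.Results.MP_db16df_lc.NegatedFormForced

open Cardinal Order Pool.Agent.Helper539.LadForced

/-- For every strong limit cardinal `lam > ℵ₀` of cofinality `ω` (and there is such a cardinal)
there is a forcing notion which forces the negated form of the question for `lam` and the
successor cardinal of `lam`, for every set `M` of colours with at least two elements. -/
theorem result :
    (∀ lam : Cardinal.{0}, ℵ₀ < lam → lam.ord.cof = ℵ₀ →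
      (∀ ν < lam, (2 : Cardinal.{0}) ^ ν < lam) →
      ∃ (P : Type 1) (_ : Preorder P), Nonempty P ∧ ∀ (M : Type) [Nontrivial M] (p : P),
        p ∈ LadderGuessingFails P (Set.Iio lam.ord) (Set.Iio (succ lam).ord) M) ∧
    ∃ lam : Cardinal.{0}, ℵ₀ < lam ∧ lam.ord.cof = ℵ₀ ∧
      ∀ ν < lam, (2 : Cardinal.{0}) ^ ν < lam :=
  ⟨fun _ h0 hcof hs => Pool.Agent.Helper539.LadFinal.main h0 hcof hs,
    Pool.Agent.Helper539.LadOrd2.exists_strong_limit⟩

end Pool.Agent.Results.MP_db16df_lc.NegatedFormForced
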